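import Pool.Agent.Helper68.T3.GoalsA
import Pool.Agent.Helper64.VN.SIEB

/-!
# Packet PG-SIE3 (project T3, MP_a41896_nt): the conditions can be solved

Adapted from `Pool/Agent/Helper64/VN/SIEB.lean`.
-/

set_option autoImplicit false

open MvPolynomial

namespace Pool.Agent.Helper93.T3

open WeierstrassCurve Height NumberField
open Pool.Agent.Helper29.BL Pool.Agent.Helper92.Ru Pool.Agent.Helper42.SG
open Pool.Agent.Helper77.SGC (N0 HOUS)
open Pool.Agent.Helper68.VN Pool.Agent.Helper68.T3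
open Pool.Agent.Helper64.VN (v_nat card_box N0_le den den_ne den_gam int_gam bd_gam sq_ge)

noncomputable section

section entry

variable {K : Type} [Field K] [NumberField K] {σ : Type} [Fintype σ] [DecidableEq σ]

variable {W : σ → Affine K} {B : AbsoluteValue K ℝ → ℝ} {D M : ℕ}
  {S : σ → ℕ → Bool → Fin 2 → ℕ → ℕ → ℕ → ℕ → K}

omit [NumberField K] [DecidableEq σ] in
/-- the product of the `S` with its denominator -/
lemma bd_S (hS : ArS W B D M S) (hB : ∀ v, 1 ≤ B v) (e : ℕ) (hD : 0 < D) (l : σ → Bool)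
    (μ : σ → Fin 2) (s g : σ → ℕ) (x : Ax σ M e) (v : AbsoluteValue K ℝ) :
    v (∏ i, ((D : K) ^ (4 ^ e * (M + 1)) *
          S i e (l i) (μ i) (s i) (g i) (x i).1.val (x i).2.val)) ≤
      (D * B v) ^ (4 ^ e * ((2 * M + 2) * (Fintype.card σ + 1))) := by
  have hDr : (1 : ℝ) ≤ D := by exact_mod_cast hD
  have hBv := hB v
  have hDB : (1 : ℝ) ≤ D * B v := one_le_mul_of_one_le_of_one_le hDr hBv
  rw [map_prod]
  have h1 : ∏ i, v ((D : K) ^ (4 ^ e * (M + 1)) *
          S i e (l i) (μ i) (s i) (g i) (x i).1.val (x i).2.val) ≤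
      ∏ _i : σ, (D * B v) ^ (4 ^ e * (M + 1)) := by
    refine Finset.prod_le_prod (fun _ _ => v.nonneg _) fun i _ => ?_
    rw [v.map_mul, v.map_pow, mul_pow]
    exact mul_le_mul (pow_le_pow_left₀ (v.nonneg _) (v_nat v _) _) (hS.bd _ _ _ _ _ _ _ _ v)
      (v.nonneg _) (by positivity)
  refine h1.trans ?_
  rw [Finset.prod_const, Finset.card_univ, ← pow_mul]
  refine pow_le_pow_right₀ hDB ?_
  rw [mul_assoc]
  exact Nat.mul_le_mul_left _ (Nat.mul_le_mul (by omega) (by omega))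

/-- the house of the second factor -/
lemma house_gam2 (hS : ArS W B D M S) (hB : ∀ v, 1 ≤ B v) (F : AbsoluteValue K ℝ → ℝ)
    (hF : ∀ v, D * B v ≤ F v) {b0 : ℝ} (hb0 : 1 ≤ b0)
    (hH : ∀ (x : K) (k : ℕ), (∀ v, v x ≤ F v ^ k) → house x ≤ b0 ^ k) (e : ℕ) (hD : 0 < D)
    (r : (σ → ℕ) → K) {H : ℝ} (hr : ∀ s, house (r s) ≤ Real.exp H) (l : σ → Bool)
    (μ : σ → Fin 2) (g : σ → ℕ) (x : Ax σ M e) :
    house (den K σ D 1 M e * Gam S M e r l μ g x) ≤
      ((2 : ℝ) ^ Fintype.card σ * b0) ^ (4 ^ e * ((2 * M + 2) * (Fintype.card σ + 1))) *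
        Real.exp H := by
  set m := Fintype.card σ with hm
  set k := 4 ^ e * ((2 * M + 2) * (m + 1)) with hk
  rw [den_gam]
  refine (house_sum_le_sum_house _ _).trans ?_
  have hterm : ∀ s ∈ box σ (N0 M e), house ((((1 : ℕ) : K) ^ (N0 M e + 1) * r s) *
        ∏ i, ((D : K) ^ (4 ^ e * (M + 1)) *
          S i e (l i) (μ i) (s i) (g i) (x i).1.val (x i).2.val)) ≤ Real.exp H * b0 ^ k := by
    intro s _
    rw [Nat.cast_one, one_pow, one_mul]
    refine (house_mul_le _ _).trans (mul_le_mul (hr s) ?_ (house_nonneg _) (Real.exp_nonneg _))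
    refine hH _ k fun v => (bd_S hS hB e hD l μ s g x v).trans ?_
    exact pow_le_pow_left₀ (mul_nonneg (Nat.cast_nonneg _) (le_trans zero_le_one (hB v))) (hF v) _
  refine (Finset.sum_le_card_nsmul _ _ _ hterm).trans ?_
  rw [nsmul_eq_mul, card_box, ← hm]
  push_cast
  have hN := N0_le M e
  have hk1 : N0 M e + 1 ≤ k := by
    refine hN.trans ?_
    rw [hk]
    exact Nat.mul_le_mul_left _ (Nat.le_mul_of_pos_right _ (by omega))
  have h5 : ((N0 M e : ℝ) + 1) ^ m ≤ ((2 : ℝ) ^ m) ^ k := by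
    rw [← pow_mul, mul_comm, pow_mul]
    refine pow_le_pow_left₀ (by positivity) ?_ _
    have h6 : ((N0 M e + 1 : ℕ) : ℝ) ≤ (2 : ℝ) ^ (N0 M e + 1) := by
      have := (Nat.lt_two_pow_self (n := N0 M e + 1)).le
      exact_mod_cast this
    push_cast at h6
    exact h6.trans (pow_le_pow_right₀ (by norm_num) hk1)
  have b00 : 0 ≤ b0 := by linarith
  calc ((N0 M e : ℝ) + 1) ^ m * (Real.exp H * b0 ^ k) ≤ ((2 : ℝ) ^ m) ^ k * (Real.exp H * b0 ^ k) :=
        mul_le_mul_of_nonneg_right h5 (by positivity)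
    _ = _ := by rw [mul_pow]; ring

/-- the Siegel matrix over `K`. -/
def entK (D d M : ℕ) (S : σ → ℕ → Bool → Fin 2 → ℕ → ℕ → ℕ → ℕ → K) {k0 : ℕ} {e : Fin 2 → ℕ}
    {T0 : Type} {gr : T0 → ℕ} (r : T0 → (σ → ℕ) → K) {U2 U : Type} (ρ : U2 → (σ → ℕ) → K)
    (ν : U → (σ → ℕ) → K) (w : Rows3 σ k0 (4 ^ e 0) T0 gr U2 U) (α : Ix σ 2 M 1 e) : K :=
  ∑ g1 ∈ box σ (2 * M), ∑ g2 ∈ box σ (2 * M),
    (den K σ D d M (e 0) * Gam S M (e 0) (r w.2.2.1.val) (w.1 0) (w.2.1 0) g1 (α.1 0)) *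
      (den K σ D 1 M (e 1) * Gam S M (e 1) (ρ w.2.2.2.1) (w.1 1) (w.2.1 1) g2 (α.1 1)) *
      ν w.2.2.2.2 (fun i => g1 i + g2 i)

end entry

theorem t_SIE3 (h1 : CARD3) (h2 : HOUS) : Pool.Agent.Helper68.T3.SIE3 := by
  intro K _ _ σ _ _ W B B' D d c hB hB' hD hd J f Df M k0 p D0 h0 S0 i' i0 hii hh0 hp hcount
  classical
  set m := Fintype.card σ with hm
  obtain ⟨c1, hc1, hSi⟩ := Pool.Agent.Helper68.Ru.siegel K
  have hDr : (1 : ℝ) ≤ (D : ℝ) := by exact_mod_cast hD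
  have hdr : (1 : ℝ) ≤ (d : ℝ) := by exact_mod_cast hd
  have hF1 : ∀ v, (1 : ℝ) ≤ (2 : ℝ) ^ Fintype.card σ * (d * B' v) := fun v =>
    one_le_mul_of_one_le_of_one_le (one_le_pow₀ (by norm_num))
      (one_le_mul_of_one_le_of_one_le hdr (hB' v))
  have hDB : ∀ v, (1 : ℝ) ≤ D * B v := fun v => one_le_mul_of_one_le_of_one_le hDr (hB v)
  obtain ⟨b0, hb0, hH⟩ := h2 K
    (fun v => (2 : ℝ) ^ Fintype.card σ * (d * B' v) * (D * B v)) (fun v =>
      one_le_mul_of_one_le_of_one_le (hF1 v) (hDB v))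
  have hF : ∀ v : AbsoluteValue K ℝ, D * B v ≤ (2 : ℝ) ^ Fintype.card σ * (d * B' v) * (D * B v) :=
    fun v => le_mul_of_one_le_left (by linarith [hDB v]) (hF1 v)
  set κ : ℕ := (2 * M + 2) * (m + 1) with hκ
  set b1 : ℝ := (2 : ℝ) ^ m * b0 with hb1
  have hb1' : 1 ≤ b1 := one_le_mul_of_one_le_of_one_le (one_le_pow₀ (by norm_num)) hb0
  have hb01 : b0 ≤ b1 := le_mul_of_one_le_left (by linarith) (one_le_pow₀ (by norm_num))
  set G : ℝ := ((2 * M + 1 : ℕ) : ℝ) ^ m with hG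
  have hG1 : 1 ≤ G := one_le_pow₀ (by push_cast; linarith [Nat.cast_nonneg (α := ℝ) M])
  set Q : ℝ := c1 * c1 * ((M : ℝ) + 1) ^ (2 * m) * G ^ 2 with hQ
  have hM1 : (1 : ℝ) ≤ (M : ℝ) + 1 := by linarith [Nat.cast_nonneg (α := ℝ) M]
  have hQ1 : 1 ≤ Q := one_le_mul_of_one_le_of_one_le
    (one_le_mul_of_one_le_of_one_le (one_le_mul_of_one_le_of_one_le hc1 hc1)
      (one_le_pow₀ hM1)) (one_le_pow₀ hG1)
  have hlQ := Real.log_nonneg hQ1
  have hlb := Real.log_nonneg hb1'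
  refine ⟨Real.log Q + 2 * m + 2 * κ * Real.log b1 + 2, by positivity, ?_⟩
  intro e S T0 _ gr E r U2 U _ _ ρ ν x0 g a0 H hS hcen hU2 hU hH0 hred hredG
  have hsq : 1 ≤ sqB e :=
    (Nat.one_le_pow _ _ (by norm_num)).trans (sq_ge e (0 : Fin 2))
  have hsqr : (1 : ℝ) ≤ (sqB e : ℝ) := by exact_mod_cast hsq
  -- integrality
  have hint : ∀ (w : Rows3 σ k0 (4 ^ e 0) T0 gr U2 U) (u : Ix σ 2 M 1 e),
      IsIntegral ℤ (entK D d M S r ρ ν w u) := by
    intro w u
    unfold entK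
    refine IsIntegral.sum _ fun g1 _ => IsIntegral.sum _ fun g2 _ =>
      IsIntegral.mul (IsIntegral.mul ?_ ?_) (hred.int _ _)
    · exact int_gam hS d (e 0) _ (fun s => hcen.int _ s) _ _ _ _
    · refine int_gam hS 1 (e 1) _ (fun s => ?_) _ _ _ _
      rw [Nat.cast_one, one_pow, one_mul]
      exact hredG.int _ _
  -- the matrix
  set a : Matrix (Rows3 σ k0 (4 ^ e 0) T0 gr U2 U) {α : Ix σ 2 M 1 e // Sup3 i' i0 h0 α} (𝓞 K) :=
    fun w u => ⟨entK D d M S r ρ ν w u.val, hint w u.val⟩ with ha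
  have hacoe : ∀ w u, ((a w u : 𝓞 K) : K) = entK D d M S r ρ ν w u.val := fun w u => rfl
  have hA1 : (1 : ℝ) ≤ G ^ 2 * b1 ^ (2 * κ * sqB e) * Real.exp (2 * H) :=
    one_le_mul_of_one_le_of_one_le (one_le_mul_of_one_le_of_one_le (one_le_pow₀ hG1)
      (one_le_pow₀ hb1')) (Real.one_le_exp (by linarith))
  have hhouse : ∀ w u, house ((a w u : 𝓞 K) : K) ≤
      G ^ 2 * b1 ^ (2 * κ * sqB e) * Real.exp (2 * H) := by
    intro w u
    rw [hacoe]
    unfold entK
    have hterm : ∀ g1 ∈ box σ (2 * M), ∀ g2 ∈ box σ (2 * M),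
        house ((den K σ D d M (e 0) * Gam S M (e 0) (r w.2.2.1.val) (w.1 0) (w.2.1 0) g1
            (u.val.1 0)) *
          (den K σ D 1 M (e 1) * Gam S M (e 1) (ρ w.2.2.2.1) (w.1 1) (w.2.1 1) g2 (u.val.1 1)) *
          ν w.2.2.2.2 (fun i => g1 i + g2 i)) ≤ b1 ^ (2 * κ * sqB e) * Real.exp (2 * H) := by
      intro g1 _ g2 _
      have e1 : house (den K σ D d M (e 0) * Gam S M (e 0) (r w.2.2.1.val) (w.1 0) (w.2.1 0) g1
            (u.val.1 0)) ≤ b1 ^ (κ * sqB e) := by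
        refine (hH _ (4 ^ e 0 * ((2 * M + 2) * (Fintype.card σ + 1))) fun v =>
          bd_gam hS hB B' hB' d (e 0) hD hd _ (fun v s => hcen.bd v _ s) _ _ _ _ v).trans ?_
        refine (pow_le_pow_left₀ (by linarith) hb01 _).trans (pow_le_pow_right₀ hb1' ?_)
        rw [mul_comm, hκ, hm]
        exact Nat.mul_le_mul_left _ (sq_ge e 0)
      have e2 : house (den K σ D 1 M (e 1) * Gam S M (e 1) (ρ w.2.2.2.1) (w.1 1) (w.2.1 1) g2
            (u.val.1 1)) ≤ b1 ^ (κ * sqB e) * Real.exp H := by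
        refine (house_gam2 hS hB _ hF hb0 hH (e 1) hD _ (fun s => hredG.hs _ s) _ _ _ _).trans ?_
        refine mul_le_mul_of_nonneg_right ?_ (Real.exp_nonneg _)
        refine pow_le_pow_right₀ hb1' ?_
        rw [mul_comm, hκ, hm]
        exact Nat.mul_le_mul_left _ (sq_ge e 1)
      have e3 := hred.hs w.2.2.2.2 (fun i => g1 i + g2 i)
      refine (house_mul_le _ _).trans ?_
      refine (mul_le_mul ((house_mul_le _ _).trans (mul_le_mul e1 e2 (house_nonneg _)
        (by positivity))) e3 (house_nonneg _) (by positivity)).trans (le_of_eq ?_)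
      rw [two_mul H, Real.exp_add, show 2 * κ * sqB e = κ * sqB e + κ * sqB e by ring, pow_add]
      ring
    have hin : ∀ g1 ∈ box σ (2 * M), house (∑ g2 ∈ box σ (2 * M),
        (den K σ D d M (e 0) * Gam S M (e 0) (r w.2.2.1.val) (w.1 0) (w.2.1 0) g1
            (u.val.1 0)) *
          (den K σ D 1 M (e 1) * Gam S M (e 1) (ρ w.2.2.2.1) (w.1 1) (w.2.1 1) g2 (u.val.1 1)) *
          ν w.2.2.2.2 (fun i => g1 i + g2 i)) ≤
        G * (b1 ^ (2 * κ * sqB e) * Real.exp (2 * H)) := by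
      intro g1 hg1
      refine (house_sum_le_sum_house _ _).trans ?_
      refine (Finset.sum_le_card_nsmul _ _ _ (hterm g1 hg1)).trans ?_
      rw [nsmul_eq_mul, card_box, ← hm, hG]
      push_cast
      exact le_rfl
    refine (house_sum_le_sum_house _ _).trans ?_
    refine (Finset.sum_le_card_nsmul _ _ _ hin).trans ?_
    rw [nsmul_eq_mul, card_box, ← hm, hG]
    push_cast
    exact le_of_eq (by ring)
  have hne : Nonempty {α : Ix σ 2 M 1 e // Sup3 i' i0 h0 α} :=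
    ⟨⟨(fun h => fun _ => (⟨0, by positivity⟩, ⟨0, by omega⟩), fun _ => ⟨0, by omega⟩),
      ⟨rfl, by simp⟩⟩⟩
  have hcd := h1 σ M k0 p c D0 h0 S0 i' i0 e T0 gr U2 U hii hh0 hp (hcen.bad (k0 * 4 ^ e 0)) hU2 hU
    hcount
  rw [Nat.card_eq_fintype_card, Nat.card_eq_fintype_card] at hcd
  obtain ⟨ξ, hξ0, hξ, hξb⟩ := hSi (Rows3 σ k0 (4 ^ e 0) T0 gr U2 U)
    {α : Ix σ 2 M 1 e // Sup3 i' i0 h0 α} a
    (G ^ 2 * b1 ^ (2 * κ * sqB e) * Real.exp (2 * H)) hA1 hcd (Fintype.card_pos_iff.2 hne) hhouse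
  -- the bound
  have hbound : ∀ y, house ((ξ y : 𝓞 K) : K) ≤
      Real.exp ((Real.log Q + 2 * m + 2 * κ * Real.log b1 + 2) * (sqB e + H)) := by
    intro y
    refine (hξb y).trans ?_
    -- the number of unknowns
    have hcard : (Fintype.card {α : Ix σ 2 M 1 e // Sup3 i' i0 h0 α} : ℝ) ≤
        Real.exp (2 * m * sqB e) * ((M : ℝ) + 1) ^ (2 * m) := by
      have h30 : (Fintype.card {α : Ix σ 2 M 1 e // Sup3 i' i0 h0 α} : ℝ) ≤
          (Fintype.card (Ix σ 2 M 1 e) : ℝ) := by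
        exact_mod_cast Fintype.card_subtype_le _
      refine h30.trans ?_
      have h3 : Fintype.card (Ix σ 2 M 1 e) = ∏ h : Fin 2, (4 ^ e h * (M + 1)) ^ m := by
        rw [Fintype.card_prod, Fintype.card_pi, Fintype.card_fun, Fintype.card_fin, one_pow,
          mul_one]
        refine Finset.prod_congr rfl fun h _ => ?_
        rw [Fintype.card_fun, Fintype.card_prod, Fintype.card_fin, Fintype.card_fin]
      rw [h3]
      push_cast
      simp only [mul_pow]
      rw [Finset.prod_mul_distrib, Finset.prod_const, Finset.card_univ, Fintype.card_fin,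
        ← pow_mul, mul_comm m 2]
      have h4 : ∏ h : Fin 2, ((4 : ℝ) ^ e h) ^ m ≤
          ∏ _h : Fin 2, (Real.exp (sqB e)) ^ m := by
        refine Finset.prod_le_prod (fun _ _ => by positivity) fun h _ => ?_
        refine pow_le_pow_left₀ (by positivity) ?_ _
        have h6 : (4 : ℝ) ^ e h ≤ (sqB e : ℝ) := by exact_mod_cast sq_ge e h
        have h7 := Real.add_one_le_exp (sqB e : ℝ)
        linarith
      rw [Finset.prod_const, Finset.card_univ, Fintype.card_fin, ← pow_mul, ← Real.exp_nat_mul]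
        at h4
      have h8 : (((m * 2 : ℕ) : ℝ) * (sqB e : ℝ)) = 2 * m * sqB e := by
        push_cast; ring
      rw [h8] at h4
      exact mul_le_mul_of_nonneg_right h4 (by positivity)
    have hb : b1 ^ (2 * κ * sqB e) = Real.exp (2 * κ * Real.log b1 * sqB e) := by
      rw [← Real.exp_log (show (0 : ℝ) < b1 by linarith), ← Real.exp_nat_mul, Real.exp_log
        (show (0 : ℝ) < b1 by linarith)]
      congr 1
      push_cast
      ring
    have hQe : Q ≤ Real.exp (Real.log Q * sqB e) := by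
      calc Q = Real.exp (Real.log Q * 1) := by
            rw [mul_one, Real.exp_log (by linarith)]
        _ ≤ Real.exp (Real.log Q * sqB e) :=
            Real.exp_le_exp.2 (mul_le_mul_of_nonneg_left hsqr hlQ)
    calc c1 * (c1 * (Fintype.card {α : Ix σ 2 M 1 e // Sup3 i' i0 h0 α} : ℝ) *
          (G ^ 2 * b1 ^ (2 * κ * sqB e) * Real.exp (2 * H)))
        ≤ c1 * (c1 * (Real.exp (2 * m * sqB e) * ((M : ℝ) + 1) ^ (2 * m)) *
            (G ^ 2 * b1 ^ (2 * κ * sqB e) * Real.exp (2 * H))) := by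
          have : 0 ≤ c1 := by linarith
          have : 0 ≤ G := by linarith
          have : 0 ≤ b1 := by linarith
          gcongr
      _ = Q * (Real.exp (2 * m * sqB e) * b1 ^ (2 * κ * sqB e) * Real.exp (2 * H)) := by
          rw [hQ]
          ring
      _ ≤ Real.exp (Real.log Q * sqB e) *
            (Real.exp (2 * m * sqB e) * b1 ^ (2 * κ * sqB e) * Real.exp (2 * H)) :=
          mul_le_mul_of_nonneg_right hQe (by positivity)
      _ = Real.exp ((Real.log Q + 2 * m + 2 * κ * Real.log b1) * sqB e + 2 * H) := by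
          rw [hb, ← Real.exp_add, ← Real.exp_add, ← Real.exp_add]
          congr 1
          ring
      _ ≤ Real.exp ((Real.log Q + 2 * m + 2 * κ * Real.log b1 + 2) * (sqB e + H)) := by
          refine Real.exp_le_exp.2 ?_
          have h9 : 0 ≤ Real.log Q + 2 * m + 2 * κ * Real.log b1 := by positivity
          nlinarith [mul_nonneg h9 hH0]
  refine ⟨fun α => if h : Sup3 i' i0 h0 α then ((ξ ⟨α, h⟩ : 𝓞 K) : K) else 0, ?_, ?_, ?_, ?_, ?_⟩
  · intro h
    apply hξ0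
    funext α
    have h3 := congrFun h α.val
    simp only [dif_pos α.property] at h3
    exact RingOfIntegers.coe_eq_zero_iff.1 h3
  · intro α
    dsimp only
    split_ifs
    · exact RingOfIntegers.isIntegral_coe _
    · exact isIntegral_zero
  · intro α
    dsimp only
    split_ifs
    · exact hbound _
    · exact (Pool.Agent.Helper68.Ru.house_zero' K).trans (Real.exp_nonneg _)
  · intro α hα
    exact dif_neg hα
  · -- the conditions
    intro l μ t hbad u2 u
    set w : Rows3 σ k0 (4 ^ e 0) T0 gr U2 U := ⟨l, μ, ⟨t, hbad⟩, u2, u⟩ with hw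
    have hrow := congrFun hξ w
    have hK := congrArg (algebraMap (𝓞 K) K) hrow
    rw [Matrix.mulVec, dotProduct, map_sum] at hK
    have hK2 : ∑ y : {α : Ix σ 2 M 1 e // Sup3 i' i0 h0 α},
        entK D d M S r ρ ν w y.val * ((ξ y : 𝓞 K) : K) = 0 := by
      refine Eq.trans (Finset.sum_congr rfl fun y _ => ?_) (hK.trans (map_zero _))
      rw [map_mul]
      rfl
    have hE : den K σ D d M (e 0) * den K σ D 1 M (e 1) ≠ 0 :=
      mul_ne_zero (den_ne D d M (e 0) hD hd) (den_ne D 1 M (e 1) hD one_pos)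
    refine (mul_eq_zero.1 (Eq.trans ?_ hK2)).resolve_left hE
    have hsub : ∑ α : Ix σ 2 M 1 e, (if h : Sup3 i' i0 h0 α then ((ξ ⟨α, h⟩ : 𝓞 K) : K) else 0) *
        ∑ g1 ∈ box σ (2 * M), ∑ g2 ∈ box σ (2 * M),
          Gam S M (e 0) (r t) (l 0) (μ 0) g1 (α.1 0) *
            Gam S M (e 1) (ρ u2) (l 1) (μ 1) g2 (α.1 1) * ν u (fun i => g1 i + g2 i) =
        ∑ y : {α : Ix σ 2 M 1 e // Sup3 i' i0 h0 α}, ((ξ y : 𝓞 K) : K) *
          ∑ g1 ∈ box σ (2 * M), ∑ g2 ∈ box σ (2 * M),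
          Gam S M (e 0) (r t) (l 0) (μ 0) g1 (y.val.1 0) *
            Gam S M (e 1) (ρ u2) (l 1) (μ 1) g2 (y.val.1 1) * ν u (fun i => g1 i + g2 i) := by
      rw [← Finset.sum_filter_add_sum_filter_not Finset.univ (fun α : Ix σ 2 M 1 e =>
        Sup3 i' i0 h0 α)]
      rw [Finset.sum_eq_zero (s := Finset.univ.filter (fun α : Ix σ 2 M 1 e =>
        ¬ Sup3 i' i0 h0 α)), add_zero]
      · rw [Finset.sum_subtype (Finset.univ.filter (fun α : Ix σ 2 M 1 e => Sup3 i' i0 h0 α))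
          (p := fun α => Sup3 i' i0 h0 α) (fun α => by simp)]
        refine Finset.sum_congr rfl fun y _ => ?_
        rw [dif_pos y.property]
      · intro α hα
        rw [Finset.mem_filter] at hα
        rw [dif_neg hα.2, zero_mul]
    refine (congrArg (fun z => den K σ D d M (e 0) * den K σ D 1 M (e 1) * z) hsub).trans ?_
    rw [Finset.mul_sum]
    refine Finset.sum_congr rfl fun y _ => ?_
    unfold entK
    rw [Finset.mul_sum, Finset.mul_sum, Finset.sum_mul]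
    refine Finset.sum_congr rfl fun g1 _ => ?_
    rw [Finset.mul_sum, Finset.mul_sum, Finset.sum_mul]
    refine Finset.sum_congr rfl fun g2 _ => ?_
    ring

end

end Pool.Agent.Helper93.T3
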