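import Pool.Agent.Helper47.T3.Goals

/-!
# Project FLG, `n = 3`, packet T3M: the Gram matrix in the quaternionic frame is a metric
-/

set_option autoImplicit false

namespace Pool.Agent.Helper93.T3

open Finset MeasureTheory Pool.Agent.Helper73 Pool.Agent.Helper47 Pool.Agent.Helper47.T3

theorem ofQ_smul (r : ℝ) (q : TS.HH) : ofQ (r • q) = r • ofQ q := by
  ext i
  fin_cases i <;> simp [ofQ]

theorem qv_ofQ (hA : A_T3A) (i : Fin 3) (q : TS.HH) : qv i (ofQ q) = ofQ (q * TS.qe i) := by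
  unfold qv
  rw [(hA.2.1 q).1]

theorem qv_smul (hA : A_T3A) (i : Fin 3) (r : ℝ) (q : TS.HH) :
    qv i (ofQ (r • q)) = r • qv i (ofQ q) := by
  rw [qv_ofQ hA, qv_ofQ hA, smul_mul_assoc, ofQ_smul]

theorem g3_rays (hA : A_T3A) (M : SN.RMetric 3) (r : ℝ) (q : TS.HH) (hr : 0 < r) :
    g3 M.G (r • q) = g3 M.G q := by
  ext i j
  simp only [g3, Matrix.of_apply]
  have h1 : SN.ip M.G (ofQ (r • q)) (fun a => qv i (ofQ (r • q)) a) (fun a => qv j (ofQ (r • q)) a) =
      r ^ 2 * SN.ip M.G (ofQ q) (fun a => qv i (ofQ q) a) (fun a => qv j (ofQ q) a) := by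
    unfold SN.ip
    rw [qv_smul hA, qv_smul hA, ofQ_smul, M.rays r _ hr, mul_sum]
    refine sum_congr rfl fun a _ => ?_
    rw [mul_sum]
    refine sum_congr rfl fun b _ => ?_
    simp only [PiLp.smul_apply, smul_eq_mul]
    ring
  rw [h1, norm_smul, Real.norm_eq_abs, abs_of_pos hr, mul_pow]
  have h2 : r ^ 2 ≠ 0 := by positivity
  rw [mul_div_mul_left _ _ h2]

theorem g3_smooth (hA : A_T3A) (M : SN.RMetric 3) (i j : Fin 3) :
    ContDiffOn ℝ ((⊤ : ℕ∞) : WithTop ℕ∞) (fun q => g3 M.G q i j) {0}ᶜ := by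
  have hA' := hA
  obtain ⟨h1, h2, -, -, -, h6, -⟩ := hA
  have hq : ∀ (i : Fin 3) (a : Fin 4), ContDiff ℝ ((⊤ : ℕ∞) : WithTop ℕ∞)
      (fun q : TS.HH => qv i (ofQ q) a) := by
    intro i a
    have e : (fun q : TS.HH => qv i (ofQ q) a) = fun q => (ofQ (q * TS.qe i)) a := by
      funext q
      rw [qv_ofQ hA']
    rw [e]
    have e2 : ContDiff ℝ ((⊤ : ℕ∞) : WithTop ℕ∞) (fun q : TS.HH => ofQ (q * TS.qe i)) :=
      h6.comp (contDiff_id.mul contDiff_const)
    exact (contDiff_euclidean.1 e2) a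
  have hG : ∀ a b : Fin 4, ContDiffOn ℝ ((⊤ : ℕ∞) : WithTop ℕ∞)
      (fun q : TS.HH => M.G (ofQ q) a b) {0}ᶜ := by
    intro a b
    refine (M.smooth a b).comp h6.contDiffOn ?_
    intro q hq0
    simp only [Set.mem_compl_iff, Set.mem_singleton_iff] at hq0 ⊢
    intro h
    apply hq0
    rw [← norm_eq_zero, ← (h2 q).2, h, norm_zero]
  simp only [g3, Matrix.of_apply, SN.ip]
  refine ContDiffOn.div ?_ ?_ ?_
  · refine ContDiffOn.sum fun a _ => ContDiffOn.sum fun b _ => ?_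
    exact ((hG a b).mul (hq i a).contDiffOn).mul (hq j b).contDiffOn
  · exact (contDiff_norm_sq ℝ).contDiffOn
  · intro q hq0
    have : ‖q‖ ≠ 0 := norm_ne_zero_iff.2 hq0
    positivity

/-- the matrix with columns `x e_i` -/
noncomputable def B3 (q : TS.HH) : Matrix (Fin (3 + 1)) (Fin 3) ℝ := Matrix.of fun a i => qv i (ofQ q) a

theorem B3_inj (hA : A_T3A) (q : TS.HH) (hq : ‖q‖ = 1) : Function.Injective (B3 q).mulVec := by
  have h7 := hA.2.2.2.2.2.2.1
  have hn : ‖ofQ q‖ = 1 := by rw [(hA.2.1 q).2, hq]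
  have key : ∀ v : Fin 3 → ℝ, (B3 q).mulVec v = 0 → v = 0 := by
    intro v hv
    funext i
    have h8 : ∑ a, qv i (ofQ q) a * (B3 q).mulVec v a = v i := by
      unfold Matrix.mulVec dotProduct
      simp only [mul_sum]
      rw [sum_comm]
      have : ∀ j : Fin 3, ∑ a, qv i (ofQ q) a * (B3 q a j * v j) = (if i = j then ‖ofQ q‖ ^ 2 else 0) * v j := by
        intro j
        rw [← (h7 i j (ofQ q)).2, sum_mul]
        refine sum_congr rfl fun a _ => ?_
        show qv i (ofQ q) a * (qv j (ofQ q) a * v j) = _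
        ring
      rw [sum_congr rfl fun j _ => this j, hn]
      simp
    rw [hv] at h8
    simp at h8
    exact h8.symm
  intro v w hvw
  have : (B3 q).mulVec (v - w) = 0 := by rw [Matrix.mulVec_sub, hvw, sub_self]
  exact sub_eq_zero.1 (key _ this)

theorem g3_posDef (hA : A_T3A) (M : SN.RMetric 3) (q : TS.HH) (hq : ‖q‖ = 1) :
    (g3 M.G q).PosDef := by
  have hn : ‖ofQ q‖ = 1 := by rw [(hA.2.1 q).2, hq]
  have h := (M.posDef (ofQ q) hn).conjTranspose_mul_mul_same (B3_inj hA q hq)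
  have e : (B3 q).conjTranspose * M.G (ofQ q) * B3 q = g3 M.G q := by
    ext i j
    simp only [g3, Matrix.of_apply, SN.ip, hq, one_pow, div_one, Matrix.mul_apply,
      Matrix.conjTranspose_apply, star_trivial, B3]
    rw [sum_comm]
    refine sum_congr rfl fun b _ => ?_
    rw [sum_mul]
    refine sum_congr rfl fun a _ => ?_
    ring
  rwa [e] at h

theorem t_T3M_aux (hT3A : A_T3A) : A_T3M := by
  intro M
  exact ⟨⟨g3 M.G, g3_smooth hT3A M, fun r x hr => g3_rays hT3A M r x hr,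
    fun x hx => g3_posDef hT3A M x hx⟩, rfl⟩

end Pool.Agent.Helper93.T3

namespace Pool.Agent.Helper47.T3

theorem t_T3M (hT3A : A_T3A) : A_T3M := Pool.Agent.Helper93.T3.t_T3M_aux hT3A

end Pool.Agent.Helper47.T3
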